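import Pool.Agent.R547.MJ.Main

/-!
# MP_1ffe94_lc, Q1: majority domination on complete multipartite graphs is in `P`

`MajCMP` (in `Pool.Agent.R547.MJ.Defs`) is the decision problem MAJ-CMP: an instance is a nonempty
list of positive integers (the sizes of the parts of a complete multipartite graph) and a positive
integer `k`, all written in binary, and the question is whether the graph has a majority
dominating function of weight at most `k`.

The problem is in `P`; so it is `NP`-hard only if `P = NP`. Moreover the answer has a closed form.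
-/

set_option autoImplicit false

namespace Pool.Agent.Results.MP_1ffe94_lc.InP

open Pool.Agent.R547.MJ Pool.Agent.NPC

theorem result :
    -- MAJ-CMP is decidable in polynomial time
    InPP MajCMP ∧
    -- if it is NP-hard, then P = NP
    (NPHardP MajCMP → ∀ L : Set (List Bool), InNP L → Pool.Agent.NPC.InP L) ∧
    -- the answer in closed form
    (∀ (ns : List ℕ) (k : ℕ), ns ≠ [] → (∀ n ∈ ns, 0 < n) → 0 < k →
      ((∃ f : Vert ns → ℤ, IsMDF (Kgraph ns) f ∧ ∑ v, f v ≤ (k : ℤ)) ↔
        (2 ≤ k ∨ ns.sum % 2 = 1 ∨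
          (2 * ns.count 1 ≤ ns.sum ∧
            ((∀ n ∈ ns, n = 1 ∨ n = 3) → 3 ∣ ns.count 1) ∧
            ¬ (ns.length = 2 ∧ ns.count 1 = 1) ∧
            ¬ (ns.length = 4 ∧ ns.count 1 = 2 ∧
              ∀ n ∈ ns, n = 1 ∨ (2 * n + 2 = ns.sum ∧ n % 2 = 1)))))) :=
  ⟨majCMP_inP, majCMP_collapse, fun ns k hne hpos hk => exists_iff ns hne hpos k hk⟩

end Pool.Agent.Results.MP_1ffe94_lc.InP
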